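import Pool.Agent.Y382.DN.Stm3
import Pool.Agent.Y382.DN.Graph
import Pool.Agent.H554R2.RK.Glued

/-!
Graphs without `K_{r,r}` decided by programs which read every bit at most `k` times: the bound and
its asymptotic form (helper905).
-/

set_option autoImplicit false

namespace Pool.Agent.Y905.DN

open Finset Pool.Agent.H554R2.Sem Pool.Agent.H554R2.RK Pool.Agent.H607R2.BW Pool.Agent.Y382.RK

theorem append_inj {m : ℕ} {x y x' y' : Str m} (h : Fin.append x y = Fin.append x' y') :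
    x = x' ∧ y = y' := by
  constructor
  · funext i
    have := congrFun h (Fin.castAdd m i)
    simpa using this
  · funext i
    have h1 := congrFun h (Fin.natAdd m i)
    rw [Fin.append_right, Fin.append_right] at h1
    exact h1

theorem t_BND (hR : S_RECT) : S_BND := by
  classical
  intro k s
  obtain ⟨Q, c, hQ, hcov⟩ := rect_cover k s
  refine ⟨Q, c, hQ, fun r ρ hr hρ => ?_⟩
  obtain ⟨C, hC, hrect⟩ := hR Q r ρ hQ hr hρ
  refine ⟨C, hC, fun m S P G hm hD hfree => ?_⟩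
  obtain ⟨hrk, hcard, hadj⟩ := hD
  obtain ⟨M, R, hM, hacc, hrec⟩ := hcov (m + m) (by omega) P hrk S hcard univ
  set E : ℝ := ((2 : ℝ) ^ m) ^ (2 - 1 / (4 * Q : ℝ)) + ((2 : ℝ) ^ m) ^ (2 - 1 / (ρ : ℝ)) with hE
  have hE0 : 0 ≤ E := by positivity
  have hgrid := Pool.Agent.Y382.DN.gridFree_of_free (le_refl r) (le_refl r) G hfree
  have h1 : ∀ j, ((R j).card : ℝ) ≤ C * E := by
    intro j
    apply hrect m (R j) (hrec j)
    intro x y hx hy
    obtain ⟨i, i', h⟩ := hgrid x y hx hy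
    refine ⟨i, i', fun hmem => h ?_⟩
    rw [hadj]
    have := (hacc _).2 ⟨j, hmem⟩
    exact fun t => this t (mem_univ _)
  have h2 : Nat.card {p : Str m × Str m // G.Adj p.1 p.2} ≤ (univ.biUnion R).card := by
    have e : (univ.biUnion R).card = Nat.card {x // x ∈ univ.biUnion R} := by
      rw [Nat.card_eq_fintype_card, Fintype.card_coe]
    rw [e]
    refine Nat.card_le_card_of_injective (fun p => ⟨Fin.append p.1.1 p.1.2, ?_⟩) ?_
    · have h3 := (hacc (Fin.append p.1.1 p.1.2)).1 (fun i _ => (hadj _ _).1 p.2 i)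
      obtain ⟨j, hj⟩ := h3
      exact mem_biUnion.2 ⟨j, mem_univ _, hj⟩
    · intro p q hpq
      have h4 := append_inj (congrArg Subtype.val hpq)
      exact Subtype.ext (Prod.ext h4.1 h4.2)
  rw [Pool.Agent.Y382.DN.card_pairs] at h2
  have h3 : ((univ.biUnion R).card : ℝ) ≤ M * (C * E) := by
    calc ((univ.biUnion R).card : ℝ) ≤ ∑ j, ((R j).card : ℝ) := by exact_mod_cast card_biUnion_le
      _ ≤ ∑ j : Fin M, C * E := sum_le_sum fun j _ => h1 j
      _ = M * (C * E) := by simp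
  have h4 : (M : ℝ) ≤ ((S : ℝ) + 1) ^ c := by exact_mod_cast hM
  have h5 : (Nat.card G.edgeSet : ℝ) ≤ ((univ.biUnion R).card : ℝ) := by
    have : Nat.card G.edgeSet ≤ (univ.biUnion R).card := by omega
    exact_mod_cast this
  calc (Nat.card G.edgeSet : ℝ) ≤ M * (C * E) := h5.trans h3
    _ ≤ ((S : ℝ) + 1) ^ c * (C * E) := by gcongr
    _ = C * ((S : ℝ) + 1) ^ c * E := by ring

open Filter in
theorem t_LARGE (hB : S_BND) : S_LARGE := by
  intro k s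
  obtain ⟨Q, c, hQ, hb⟩ := hB k s
  refine ⟨4 * Q + 3, fun r hr => ?_⟩
  have hr1 : 1 ≤ r := by omega
  obtain ⟨C, hC, hbd⟩ := hb r (r - 1) (by omega) (by
    obtain ⟨t, rfl⟩ : ∃ t, r = t + 3 := ⟨r - 3, by omega⟩
    have : t + 3 - 1 = t + 2 := by omega
    rw [this]
    nlinarith)
  have hrR : (4 * Q + 3 : ℝ) ≤ r := by exact_mod_cast hr
  have hQR : (1 : ℝ) ≤ Q := by exact_mod_cast hQ
  have hr1R : ((r - 1 : ℕ) : ℝ) = r - 1 := by
    rw [Nat.cast_sub hr1, Nat.cast_one]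
  obtain ⟨a, ha⟩ : ∃ a : ℝ, a = 1 / (4 * Q : ℝ) := ⟨_, rfl⟩
  obtain ⟨b, hb⟩ : ∃ b : ℝ, b = 1 / ((r - 1 : ℕ) : ℝ) := ⟨_, rfl⟩
  have ha' : 1 / (r : ℝ) < a := by
    rw [ha]
    exact one_div_lt_one_div_of_lt (by linarith) (by linarith)
  have hb' : 1 / (r : ℝ) < b := by
    rw [hb, hr1R]
    exact one_div_lt_one_div_of_lt (by linarith) (by linarith)
  rw [← ha, ← hb] at hbd
  obtain ⟨μ, hμ⟩ : ∃ μ : ℝ, μ = min a b := ⟨_, rfl⟩
  have hμa : μ ≤ a := by rw [hμ]; exact min_le_left _ _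
  have hμb : μ ≤ b := by rw [hμ]; exact min_le_right _ _
  have hμr : 1 / (r : ℝ) < μ := by rw [hμ]; exact lt_min ha' hb'
  obtain ⟨ε, hε⟩ : ∃ ε : ℝ, ε = μ - 1 / r := ⟨_, rfl⟩
  have hε0 : 0 < ε := by rw [hε]; linarith
  have hc1 : (0 : ℝ) < 2 * (c + 1) := by positivity
  obtain ⟨δ, hδ⟩ : ∃ δ : ℝ, δ = ε / (2 * (c + 1)) := ⟨_, rfl⟩
  have hδ0 : 0 < δ := by rw [hδ]; positivity
  refine ⟨δ, hδ0, fun c' hc' => ?_⟩
  have htend : Tendsto (fun m : ℕ => ((2 : ℝ) ^ m) ^ (ε / 2)) atTop atTop :=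
    (tendsto_rpow_atTop (by positivity)).comp (tendsto_pow_atTop_atTop_of_one_lt (by norm_num))
  obtain ⟨m₁, hm₁⟩ := (htend.eventually_gt_atTop (2 ^ (c + 2) * C / c')).exists_forall_of_atTop
  refine ⟨max Q m₁, fun m S P G hm hD hfree he => ?_⟩
  have hmQ : Q ≤ m := le_of_max_le_left hm
  have hm1 : m₁ ≤ m := le_of_max_le_right hm
  have h1 := hbd m S P G hmQ hD hfree
  have h4 := hm₁ m hm1
  by_contra hlt
  push Not at hlt
  obtain ⟨N, hN⟩ : ∃ N : ℝ, N = (2 : ℝ) ^ m := ⟨_, rfl⟩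
  rw [← hN] at h1 h4 hlt he
  have hN1 : 1 ≤ N := by rw [hN]; exact one_le_pow₀ (by norm_num)
  have hN0 : 0 < N := by linarith
  have e1 : N ^ (2 - a) ≤ N ^ (2 - μ) := Real.rpow_le_rpow_of_exponent_le hN1 (by linarith)
  have e2 : N ^ (2 - b) ≤ N ^ (2 - μ) := Real.rpow_le_rpow_of_exponent_le hN1 (by linarith)
  have e3 : (1 : ℝ) ≤ N ^ δ := Real.one_le_rpow hN1 hδ0.le
  have hS0 : (0 : ℝ) ≤ S := Nat.cast_nonneg S
  have e4 : ((S : ℝ) + 1) ^ c ≤ 2 ^ (c + 1) * N ^ (ε / 2) := by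
    calc ((S : ℝ) + 1) ^ c ≤ ((S : ℝ) + 1) ^ (c + 1) :=
          pow_le_pow_right₀ (by linarith) (by omega)
      _ ≤ (2 * N ^ δ) ^ (c + 1) := by
        refine pow_le_pow_left₀ (by linarith) ?_ _
        linarith
      _ = 2 ^ (c + 1) * (N ^ δ) ^ (c + 1) := mul_pow _ _ _
      _ = 2 ^ (c + 1) * N ^ (ε / 2) := by
        rw [← Real.rpow_natCast (N ^ δ), ← Real.rpow_mul hN0.le]
        congr 2
        rw [hδ]
        push_cast
        field_simp
  have h2 : c' * N ^ (2 - 1 / (r : ℝ)) ≤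
      C * (2 ^ (c + 1) * N ^ (ε / 2)) * (2 * N ^ (2 - μ)) := by
    refine he.trans (h1.trans ?_)
    refine mul_le_mul (mul_le_mul_of_nonneg_left e4 hC.le) (by linarith) (by positivity)
      (by positivity)
  have e5 : N ^ (2 - 1 / (r : ℝ)) = N ^ (ε / 2) * N ^ (ε / 2) * N ^ (2 - μ) := by
    rw [← Real.rpow_add hN0, ← Real.rpow_add hN0]
    congr 1
    rw [hε]
    ring
  rw [e5] at h2
  have h3 : c' * N ^ (ε / 2) ≤ C * 2 ^ (c + 2) := by
    have hpos : 0 < N ^ (ε / 2) * N ^ (2 - μ) := by positivity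
    refine le_of_mul_le_mul_right ?_ hpos
    calc c' * N ^ (ε / 2) * (N ^ (ε / 2) * N ^ (2 - μ))
        = c' * (N ^ (ε / 2) * N ^ (ε / 2) * N ^ (2 - μ)) := by ring
      _ ≤ _ := h2
      _ = _ := by ring
  rw [div_lt_iff₀ hc'] at h4
  linarith

end Pool.Agent.Y905.DN

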